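import Mathlib
import Pool.Agent.Helper669.Forcing

set_option autoImplicit false

open Cardinal Ordinal Set
open Pool.Agent.Helper669.Forcing

namespace Pool.Agent.Results.MP_becacd_lc.NoFreshSubset

universe u v

/-! ### Fresh subsets -/

/-- `p` forces that the subset of `Y` named by `A` and the ground model set `B` have the same
elements `ξ` with `ξ ∈ Z`. -/
def AgreeOn {P : Type u} [Preorder P] {Y : Type v} (A : Y → Set P) (B : Set Y) (Z : Set Y) :
    Set P :=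
  fall fun ξ : Y => fall fun _ : ξ ∈ Z =>
    fand (fimp (meets (A ξ)) (fground (ξ ∈ B))) (fimp (fground (ξ ∈ B)) (meets (A ξ)))

/-- `p` forces that the named subset of the ordinal `Y` is fresh: for every `α` its part below
`α` is a set of the ground model, but it is not itself in the ground model. -/
def Fresh {P : Type u} [Preorder P] {Y : Type v} [LT Y] (A : Y → Set P) : Set P :=
  fand (fall fun α : Y => fex fun B : Set Y => AgreeOn A B {ξ | ξ < α})
    (fall fun B : Set Y => fnot (AgreeOn A B Set.univ))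

/-- `p` forces that there is a fresh subset of `Y` in the extension. -/
def AddsFresh (P : Type u) [Preorder P] (Y : Type v) [LT Y] : Set P :=
  fex fun A : Y → Set P => Fresh A

/-! ### Tree Prikry forcing -/

/-- Conditions of the tree Prikry forcing: a finite increasing sequence `stem`, and a tree of
finite increasing sequences with stem `stem`, all of whose nodes extending `stem` have
successor sets in `U`. -/
structure Cond {K : Type u} [LinearOrder K] (U : Ultrafilter K) where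
  stem : List K
  tree : Set (List K)
  increasing : ∀ t ∈ tree, t.Pairwise (· < ·)
  stem_mem : stem ∈ tree
  closed : ∀ t ∈ tree, ∀ s, s <+: t → s ∈ tree
  comparable : ∀ t ∈ tree, t <+: stem ∨ stem <+: t
  large : ∀ t ∈ tree, stem <+: t → {a : K | t ++ [a] ∈ tree} ∈ U

/-- `(t, S) ≤ (s, T)` iff `t ∈ T`, `t` end-extends `s` and `S ⊆ T`. -/
instance {K : Type u} [LinearOrder K] (U : Ultrafilter K) : Preorder (Cond U) where
  le q p := q.stem ∈ p.tree ∧ p.stem <+: q.stem ∧ q.tree ⊆ p.tree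
  le_refl p := ⟨p.stem_mem, List.prefix_refl _, Subset.rfl⟩
  le_trans a b c hab hbc := ⟨hbc.2.2 hab.1, hbc.2.1.trans hab.2.1, hab.2.2.trans hbc.2.2⟩

/-- Two conditions with the same stem are compatible. -/
theorem compat {K : Type u} [LinearOrder K] {U : Ultrafilter K} {p q : Cond U}
    (h : p.stem = q.stem) : ∃ r : Cond U, r ≤ p ∧ r ≤ q := by
  refine ⟨⟨p.stem, p.tree ∩ q.tree, fun t ht => p.increasing t ht.1,
    ⟨p.stem_mem, h ▸ q.stem_mem⟩, fun t ht s hs => ⟨p.closed t ht.1 s hs, q.closed t ht.2 s hs⟩,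
    fun t ht => p.comparable t ht.1, fun t ht hs => ?_⟩, ?_, ?_⟩
  · exact U.inter_mem (p.large t ht.1 hs) (q.large t ht.2 (h ▸ hs))
  · exact ⟨p.stem_mem, List.prefix_refl _, inter_subset_left⟩
  · refine ⟨?_, ?_, inter_subset_right⟩
    · show p.stem ∈ q.tree
      rw [h]; exact q.stem_mem
    · show q.stem <+: p.stem
      rw [h]

/-! ### Centered forcings add no fresh subsets -/

variable {P : Type u} [Preorder P] {κ : Cardinal.{u}}

theorem agree_mem {Y : Type v} {A : Y → Set P} {B Z : Set Y} {p : P} (h : p ∈ AgreeOn A B Z)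
    {ξ : Y} (hξ : ξ ∈ Z) {q : P} (hq : q ≤ p) (hqA : q ∈ meets (A ξ)) : ξ ∈ B := by
  obtain ⟨r, _, hr⟩ := mem_fimp.1 (h ξ hξ).1 q hq hqA
  exact hr

theorem agree_meets {Y : Type v} {A : Y → Set P} {B Z : Set Y} {p : P} (h : p ∈ AgreeOn A B Z)
    {ξ : Y} (hξ : ξ ∈ Z) (hB : ξ ∈ B) : p ∈ meets (A ξ) := by
  intro q hq
  obtain ⟨r, hr, hr'⟩ := mem_fimp.1 (h ξ hξ).2 q hq hB
  obtain ⟨s, hs, h'⟩ := hr' r le_rfl
  exact ⟨s, hs.trans hr, h'⟩

theorem bdd_of_small {Y : Type u} [LinearOrder Y] (hκ : ℵ₀ ≤ κ)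
    (hY : #Y = Order.succ κ) (hini : ∀ y : Y, #(Iic y) ≤ κ) (S : Set Y) (hS : #S ≤ κ) :
    ∃ b, ∀ a ∈ S, a < b := by
  by_contra hcon
  push Not at hcon
  have h1 : (Set.univ : Set Y) ⊆ ⋃ s : S, Iic s.1 := by
    intro y _
    obtain ⟨a, ha, hya⟩ := hcon y
    exact mem_iUnion.mpr ⟨⟨a, ha⟩, hya⟩
  have h2 : #Y ≤ κ := by
    rw [← mk_univ]
    refine (mk_le_mk_of_subset h1).trans ((mk_iUnion_le _).trans ?_)
    calc #S * (⨆ i : S, #(Iic i.1)) ≤ κ * κ := mul_le_mul' hS (ciSup_le' fun i => hini _)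
      _ = κ := mul_eq_self hκ
  rw [hY] at h2
  exact absurd (Order.lt_succ κ) (not_lt.mpr h2)

theorem not_fresh {ι : Type u} (st : P → ι) (hst : ∀ p q : P, st p = st q → ∃ r, r ≤ p ∧ r ≤ q)
    (hκ : ℵ₀ ≤ κ) (hι : #ι ≤ κ) {Y : Type u} [LinearOrder Y] (hY : #Y = Order.succ κ)
    (hini : ∀ y : Y, #(Iic y) ≤ κ) (A : Y → Set P) (r : P) (hr : r ∈ Fresh A) : False := by
  classical
  have hbdd := bdd_of_small hκ hY hini
  have hch : ∀ α : Y, ∃ p ≤ r, ∃ B : Set Y, p ∈ AgreeOn A B {ξ | ξ < α} :=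
    fun α => mem_fex.1 (hr.1 α) r le_rfl
  choose p hp B hB using hch
  -- pigeonhole
  have hpig : ∃ s : ι, ∀ γ : Y, ∃ α, st (p α) = s ∧ γ < α := by
    by_contra hcon
    push Not at hcon
    choose g hg using hcon
    obtain ⟨b, hb⟩ := hbdd (Set.range g) (mk_range_le.trans hι)
    obtain ⟨b', hb'⟩ := hbdd {b} (by simpa using one_le_aleph0.trans hκ)
    have h1 := hg (st (p b')) b' rfl
    have h2 := hb (g (st (p b'))) (mem_range_self _)
    have h3 := hb' b rfl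
    exact absurd (h1.trans_lt (h2.trans h3)) (lt_irrefl _)
  obtain ⟨s, hs⟩ := hpig
  let B' : Set Y := {ξ | ∃ α, st (p α) = s ∧ ξ < α ∧ ξ ∈ B α}
  have hcoh : ∀ α β ξ, st (p α) = s → st (p β) = s → ξ < α → ξ < β → ξ ∈ B α → ξ ∈ B β := by
    intro α β ξ hα hβ h1 h2 h3
    obtain ⟨c, hc1, hc2⟩ := hst (p α) (p β) (hα.trans hβ.symm)
    exact agree_mem (hB β) h2 hc2 (down_meets _ _ (agree_meets (hB α) h1 h3) _ hc1)
  -- a condition forcing that many `p α` are in the generic filter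
  have hq : ∃ q ≤ r, ∀ q' ≤ q, ∀ γ : Y, ∃ α, st (p α) = s ∧ γ < α ∧ ∃ c, c ≤ q' ∧ c ≤ p α := by
    by_contra hcon
    push Not at hcon
    let Bad : ι → P → Y → Prop := fun t q γ => st q = t ∧
      ∀ α, st (p α) = s → γ < α → ∀ c, c ≤ q → ¬ c ≤ p α
    obtain ⟨b, hb⟩ := hbdd (Set.range fun t : {t : ι // ∃ q γ, Bad t q γ} => t.2.choose_spec.choose)
      (mk_range_le.trans ((mk_subtype_le _).trans hι))
    obtain ⟨α, hα1, hα2⟩ := hs b
    obtain ⟨q', hq', γ, hγ⟩ := hcon (p α) (hp α)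
    have hbad : ∃ q γ, Bad (st q') q γ := ⟨q', γ, rfl, fun β h1 h2 c hc => hγ β h1 h2 c hc⟩
    obtain ⟨h1, h2⟩ := hbad.choose_spec.choose_spec
    have h3 := hb _ (mem_range_self (⟨st q', hbad⟩ : {t : ι // ∃ q γ, Bad t q γ}))
    obtain ⟨c, hc1, hc2⟩ := hst _ _ h1
    exact h2 α hα1 (h3.trans hα2) c hc1 (hc2.trans hq')
  obtain ⟨q, hqr, hq⟩ := hq
  refine hr.2 B' q hqr fun ξ _ => ⟨?_, ?_⟩
  · refine mem_fimp.2 fun q1 hq1 h1 => ⟨q1, le_rfl, ?_⟩
    obtain ⟨α, hα1, hα2, c, hc1, hc2⟩ := hq q1 hq1 ξ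
    exact ⟨α, hα1, hα2, agree_mem (hB α) hα2 hc2 (down_meets _ _ h1 _ hc1)⟩
  · refine mem_fimp.2 fun q1 hq1 h1 => ?_
    obtain ⟨β, hβ1, hβ2, hβ3⟩ := h1
    obtain ⟨α, hα1, hα2, c, hc1, hc2⟩ := hq q1 hq1 ξ
    exact ⟨c, hc1, down_meets _ _ (agree_meets (hB α) hα2 (hcoh β α ξ hβ1 hα1 hβ2 hα2 hβ3)) _ hc2⟩

theorem mk_Iic_le (hκ : ℵ₀ ≤ κ) (y : (Order.succ κ).ord.ToType) : #(Iic y) ≤ κ := by
  have h2 : #(Iio y) ≤ κ := Order.lt_succ_iff.mp (mk_Iio_toType_ord_lt y)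
  have h3 : Iic y = insert y (Iio y) := by
    ext a; simp [le_iff_eq_or_lt]
  rw [h3]
  refine (mk_insert_le).trans ?_
  calc #(Iio y) + 1 ≤ κ + κ := add_le_add h2 (one_le_aleph0.trans hκ)
    _ = κ := add_eq_self hκ

/-- **Main theorem.** For every `κ`-complete ultrafilter `U` over an uncountable cardinal `κ`,
the tree Prikry forcing with `U` adds no fresh subset of `κ⁺`. -/
theorem result (κ : Cardinal.{u}) (hκ : ℵ₀ < κ) (U : Ultrafilter κ.ord.ToType)
    (_hcomplete : ∀ S : Set (Set κ.ord.ToType), #S < κ → (∀ s ∈ S, s ∈ U) → ⋂₀ S ∈ U)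
    (_hnonprincipal : ∀ a : κ.ord.ToType, {a} ∉ U) :
    ∀ p : Cond U, p ∈ fnot (AddsFresh (Cond U) (Order.succ κ).ord.ToType) := by
  intro p q _ hq
  obtain ⟨r, _, A, hA⟩ := mem_fex.1 hq q le_rfl
  have hinf : Infinite κ.ord.ToType := by
    rw [Cardinal.infinite_iff, mk_ord_toType]; exact hκ.le
  refine not_fresh (κ := κ) (fun p : Cond U => p.stem) (fun _ _ h => compat h) hκ.le ?_
    (Y := (Order.succ κ).ord.ToType) (mk_ord_toType _) (fun y => mk_Iic_le hκ.le y) A r hA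
  rw [mk_list_eq_mk, mk_ord_toType]

end Pool.Agent.Results.MP_becacd_lc.NoFreshSubset
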